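import Pool.Agent.Q66.Ab6

set_option autoImplicit false

namespace Pool.Agent.Results.MP_c34b65_an.MonotoneEntropy

open Q66.Ab

/-- The entropy of the `(a,b)`-continued fraction maps exists and, for fixed `b ∈ [0,1/2]`, is
monotone non-decreasing in `a` (first part). More generally it is non-decreasing in both parameters
on the part `a ≤ -1/2`, `b ≤ 1` of the parameter set (second part). The entropy is the growth rate
`s` of the number of connected components of `(-1,1) ∖ D_n`, and it equals the growth rate of the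
number of maximal intervals of monotonicity of the `n`-th iterate, for both readings `e = ±1` of the
value `∞` at the point `0`. -/
theorem result :
    (∀ e b a a' : ℝ, (e = 1 ∨ e = -1) → 0 ≤ b → b ≤ 1 / 2 → InP a b → InP a' b → a ≤ a' →
      ∃ s s' : ℝ, HasContLapEntropy e a b s ∧ HasContLapEntropy e a' b s' ∧
        HasTopEntropy (ftil e a b) s ∧ HasTopEntropy (ftil e a' b) s' ∧ s ≤ s') ∧
    (∀ e a b a' b' : ℝ, (e = 1 ∨ e = -1) → InP a b → InP a' b' → a ≤ a' → b ≤ b' →
      a' ≤ -1 / 2 → b' ≤ 1 →
      ∃ s s' : ℝ, HasContLapEntropy e a b s ∧ HasContLapEntropy e a' b' s' ∧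
        HasTopEntropy (ftil e a b) s ∧ HasTopEntropy (ftil e a' b') s' ∧ s ≤ s') := by
  have key : ∀ e a b a' b' : ℝ, (e = 1 ∨ e = -1) → InP a b → InP a' b' → a ≤ a' → b ≤ b' →
      a' ≤ -1 / 2 → b' ≤ 1 →
      ∃ s s' : ℝ, HasContLapEntropy e a b s ∧ HasContLapEntropy e a' b' s' ∧
        HasTopEntropy (ftil e a b) s ∧ HasTopEntropy (ftil e a' b') s' ∧ s ≤ s' :=
    fun e a b a' b' he h h' ha hb ha' hb' =>
      ⟨_, _, hasContLapEntropy h, hasContLapEntropy h', hasTopEntropy h he, hasTopEntropy h' he,
        mono_region h h' ha hb ha' hb'⟩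
  refine ⟨fun e b a a' he _ hb2 h h' ha => ?_, key⟩
  exact key e a b a' b he h h' ha (le_refl b) (by have := h'.2.2.1; linarith) (by linarith)

end Pool.Agent.Results.MP_c34b65_an.MonotoneEntropy
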